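import Pool.Agent.N783.PF.Def

/-!
# Points of `𝓞 F` in boxes and in classes modulo ideals (S_PTS)
-/

set_option autoImplicit false
set_option linter.all false

open Polynomial NumberField
open scoped Classical

namespace Pool.Agent.N490.PF

open Pool.Agent.N783.PF

variable {F : Type} [Field F] [NumberField F]

/-- a nonzero element of an ideal has a large conjugate -/
theorem norm_ge {𝔞 : Ideal (𝓞 F)} {x : 𝓞 F} (hx : x ∈ 𝔞) (h0 : x ≠ 0) {ρ : ℝ}
    (hb : Bd (x : F) ρ) : 0 ≤ ρ ∧ (Ideal.absNorm 𝔞 : ℝ) ≤ ρ ^ Module.finrank ℚ F := by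
  have hρ : 0 ≤ ρ := by
    obtain ⟨σ⟩ : Nonempty (F →+* ℂ) := inferInstance
    exact (norm_nonneg _).trans (hb σ)
  refine ⟨hρ, ?_⟩
  have h1 : (Ideal.absNorm 𝔞 : ℤ) ∣ Algebra.norm ℤ x := Ideal.absNorm_dvd_norm_of_mem hx
  have h2 : Algebra.norm ℤ x ≠ 0 := Algebra.norm_ne_zero_iff.2 h0
  have h3 : (Ideal.absNorm 𝔞 : ℤ) ≤ |Algebra.norm ℤ x| :=
    Int.le_of_dvd (abs_pos.2 h2) ((dvd_abs _ _).2 h1)
  have h4 : ((|Algebra.norm ℤ x| : ℤ) : ℝ) ≤ ρ ^ Module.finrank ℚ F := by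
    have h5 := Algebra.norm_eq_prod_embeddings ℚ ℂ (x : F)
    rw [← Algebra.coe_norm_int x] at h5
    have h6 : ((|Algebra.norm ℤ x| : ℤ) : ℝ) =
        ‖algebraMap ℚ ℂ ((Algebra.norm ℤ x : ℤ) : ℚ)‖ := by
      rw [eq_ratCast, Rat.cast_intCast, Complex.norm_intCast, Int.cast_abs]
    rw [h6, h5, norm_prod]
    calc ∏ σ : F →ₐ[ℚ] ℂ, ‖σ (x : F)‖ ≤ ∏ _σ : F →ₐ[ℚ] ℂ, ρ :=
          Finset.prod_le_prod (fun _ _ => norm_nonneg _) (fun σ _ => hb (σ : F →+* ℂ))
      _ = ρ ^ Module.finrank ℚ F := by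
          rw [Finset.prod_const, Finset.card_univ, AlgHom.card]
  calc (Ideal.absNorm 𝔞 : ℝ) = (((Ideal.absNorm 𝔞 : ℕ) : ℤ) : ℝ) := by push_cast; rfl
    _ ≤ ((|Algebra.norm ℤ x| : ℤ) : ℝ) := by exact_mod_cast h3
    _ ≤ _ := h4

/-- comparison of coordinates and conjugates -/
theorem coord (F : Type) [Field F] [NumberField F] : ∃ C : ℝ, 1 ≤ C ∧ ∀ a : 𝓞 F,
    (∀ R : ℝ, 0 ≤ R → Bd (a : F) R →
      ∀ i, |((RingOfIntegers.basis F).repr a i : ℝ)| ≤ C * R) ∧
    (∀ R : ℝ, 0 ≤ R → (∀ i, |((RingOfIntegers.basis F).repr a i : ℝ)| ≤ R) →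
      Bd (a : F) (C * R)) := by
  obtain ⟨T', hT'⟩ : ∃ T' : ((F →+* ℂ) → ℂ) →L[ℂ] (Module.Free.ChooseBasisIndex ℤ (𝓞 F) → ℂ),
      ∀ x, T' x = (canonicalEmbedding.latticeBasis F).equivFun x :=
    ⟨LinearMap.toContinuousLinearMap
      ((canonicalEmbedding.latticeBasis F).equivFun : ((F →+* ℂ) → ℂ) →ₗ[ℂ]
        (Module.Free.ChooseBasisIndex ℤ (𝓞 F) → ℂ)), fun x => rfl⟩
  set C1 : ℝ := ‖T'‖ with hC1
  set C2 : ℝ := ∑ σ : F →+* ℂ, ∑ i, ‖σ ((RingOfIntegers.basis F i : 𝓞 F) : F)‖ with hC2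
  have hC1n : 0 ≤ C1 := by
    rw [hC1]
    exact norm_nonneg T'
  have hC2n : 0 ≤ C2 := Finset.sum_nonneg fun _ _ => Finset.sum_nonneg fun _ _ => norm_nonneg _
  refine ⟨1 + C1 + C2, by linarith, fun a => ⟨fun R hR hb i => ?_, fun R hR hb σ => ?_⟩⟩
  · have h1 : ‖canonicalEmbedding F (a : F)‖ ≤ R := (canonicalEmbedding.norm_le_iff _ _).2 hb
    have h2 : ‖T' (canonicalEmbedding F (a : F))‖ ≤ C1 * R :=
      (ContinuousLinearMap.le_opNorm T' _).trans
        (mul_le_mul_of_nonneg_left h1 hC1n)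
    have h3 : ‖T' (canonicalEmbedding F (a : F)) i‖ ≤ C1 * R := (norm_le_pi_norm _ i).trans h2
    have h4 : T' (canonicalEmbedding F (a : F)) i =
        (((RingOfIntegers.basis F).repr a i : ℤ) : ℂ) := by
      rw [hT']
      have h5 := canonicalEmbedding.integralBasis_repr_apply F (a : F) i
      have h6 : ((integralBasis F).repr (a : F) i) = ((RingOfIntegers.basis F).repr a i : ℤ) := by
        exact integralBasis_repr_apply F a i
      rw [h6] at h5
      rw [Rat.cast_intCast] at h5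
      exact h5
    rw [h4, Complex.norm_intCast] at h3
    nlinarith [mul_nonneg hC2n hR]
  · have h1 : (a : F) = ∑ i, (((RingOfIntegers.basis F).repr a i : ℤ) : F) *
        ((RingOfIntegers.basis F i : 𝓞 F) : F) := by
      conv_lhs => rw [← (RingOfIntegers.basis F).sum_repr a]
      change algebraMap (𝓞 F) F _ = _
      rw [map_sum]
      refine Finset.sum_congr rfl fun i _ => ?_
      rw [zsmul_eq_mul, map_mul, map_intCast]
    have h2 : ‖σ (a : F)‖ ≤ ∑ i, R * ‖σ ((RingOfIntegers.basis F i : 𝓞 F) : F)‖ := by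
      conv_lhs => rw [h1]
      rw [map_sum]
      refine (norm_sum_le _ _).trans (Finset.sum_le_sum fun i _ => ?_)
      rw [map_mul, map_intCast, norm_mul, Complex.norm_intCast]
      exact mul_le_mul_of_nonneg_right (hb i) (norm_nonneg _)
    rw [← Finset.mul_sum] at h2
    have h3 : ∑ i, ‖σ ((RingOfIntegers.basis F i : 𝓞 F) : F)‖ ≤ C2 :=
      Finset.single_le_sum (f := fun σ : F →+* ℂ => ∑ i, ‖σ ((RingOfIntegers.basis F i : 𝓞 F) : F)‖)
        (fun _ _ => Finset.sum_nonneg fun _ _ => norm_nonneg _) (Finset.mem_univ σ)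
    have h4 := mul_le_mul_of_nonneg_left h3 hR
    nlinarith [mul_nonneg hC1n hR]

theorem fin_bd (R : ℝ) : {a : 𝓞 F | Bd (a : F) R}.Finite := by
  refine Set.Finite.of_finite_image (f := fun a : 𝓞 F => (a : F)) ?_
    (fun a _ b _ h => RingOfIntegers.ext h)
  refine (NumberField.Embeddings.finite_of_norm_le F ℂ R).subset ?_
  rintro _ ⟨a, ha, rfl⟩
  exact ⟨RingOfIntegers.isIntegral_coe a, ha⟩

theorem card_idx (F : Type) [Field F] [NumberField F] :
    Fintype.card (Module.Free.ChooseBasisIndex ℤ (𝓞 F)) = Module.finrank ℚ F := by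
  rw [← RingOfIntegers.rank, Module.finrank_eq_card_chooseBasisIndex]

theorem lower {C R : ℝ} (hC : 1 ≤ C) (hR : 0 ≤ R)
    (h : ∀ a : 𝓞 F, ∀ R : ℝ, 0 ≤ R → (∀ i, |((RingOfIntegers.basis F).repr a i : ℝ)| ≤ R) →
      Bd (a : F) (C * R)) :
    R ^ Module.finrank ℚ F ≤
      C ^ Module.finrank ℚ F * ({a : 𝓞 F | Bd (a : F) R}.ncard : ℝ) := by
  set k : ℕ := ⌊R / C⌋₊ with hk
  have hC0 : 0 < C := by linarith
  have hRC : 0 ≤ R / C := div_nonneg hR hC0.le
  have h1 : (k : ℝ) ≤ R / C := Nat.floor_le hRC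
  have h2 : R / C ≤ 2 * k + 1 := by
    have := (Nat.lt_floor_add_one (R / C)).le
    have hk0 : (0 : ℝ) ≤ k := Nat.cast_nonneg _
    linarith
  set Q : Finset (Module.Free.ChooseBasisIndex ℤ (𝓞 F) → ℤ) :=
    Fintype.piFinset fun _ => Finset.Icc (-(k : ℤ)) k with hQ
  have hQc : Q.card = (2 * k + 1) ^ Module.finrank ℚ F := by
    rw [hQ, Fintype.card_piFinset, Finset.prod_const, Finset.card_univ, card_idx, Int.card_Icc]
    congr 1
    omega
  have h3 : (Q : Set (Module.Free.ChooseBasisIndex ℤ (𝓞 F) → ℤ)).ncard ≤ {a : 𝓞 F | Bd (a : F) R}.ncard := by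
    refine Set.ncard_le_ncard_of_injOn
      (fun m : Module.Free.ChooseBasisIndex ℤ (𝓞 F) → ℤ =>
        (RingOfIntegers.basis F).equivFun.symm m) (fun m hm => ?_) ?_ (fin_bd R)
    · have h4 := h ((RingOfIntegers.basis F).equivFun.symm m) (R / C) hRC (fun i => by
        have h5 : (RingOfIntegers.basis F).repr ((RingOfIntegers.basis F).equivFun.symm m) i
            = m i := by
          have := congrFun ((RingOfIntegers.basis F).equivFun.apply_symm_apply m) i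
          rwa [Module.Basis.equivFun_apply] at this
        rw [h5]
        rw [Finset.mem_coe, hQ, Fintype.mem_piFinset] at hm
        have h6 := Finset.mem_Icc.1 (hm i)
        have h7 : |m i| ≤ (k : ℤ) := abs_le.2 h6
        have h8 : |(m i : ℝ)| ≤ (k : ℝ) := by exact_mod_cast h7
        exact h8.trans h1)
      rwa [mul_div_cancel₀ _ hC0.ne'] at h4
    · intro m _ m' _ hmm
      exact (RingOfIntegers.basis F).equivFun.symm.injective hmm
  rw [Set.ncard_coe_finset, hQc] at h3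
  have h4 : (R / C) ^ Module.finrank ℚ F ≤ ({a : 𝓞 F | Bd (a : F) R}.ncard : ℝ) := by
    refine (pow_le_pow_left₀ hRC h2 _).trans ?_
    exact_mod_cast h3
  rw [div_pow, div_le_iff₀ (pow_pos hC0 _)] at h4
  linarith

theorem upper {C : ℝ} (hC : 1 ≤ C) 
    (h : ∀ a : 𝓞 F,
    (∀ R : ℝ, 0 ≤ R → Bd (a : F) R →
      ∀ i, |((RingOfIntegers.basis F).repr a i : ℝ)| ≤ C * R) ∧
    (∀ R : ℝ, 0 ≤ R → (∀ i, |((RingOfIntegers.basis F).repr a i : ℝ)| ≤ R) →
      Bd (a : F) (C * R)))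
    (𝔞 : Ideal (𝓞 F)) (b : 𝓞 F) (R : ℝ) (h𝔞 : 𝔞 ≠ ⊥) (hR : 0 ≤ R) :
    ({a : 𝓞 F | a - b ∈ 𝔞 ∧ Bd (a : F) R}.ncard : ℝ) ≤
      (8 * C ^ 2) ^ Module.finrank ℚ F *
        (R ^ Module.finrank ℚ F / (Ideal.absNorm 𝔞 : ℝ) + 1) := by
  have hC0 : 0 < C := by linarith
  set d := Module.finrank ℚ F with hd
  have hd0 : 0 < d := Module.finrank_pos
  have hN0 : (0 : ℝ) < Ideal.absNorm 𝔞 := by
    have : Ideal.absNorm 𝔞 ≠ 0 := fun h0 => h𝔞 (Ideal.absNorm_eq_zero_iff.1 h0)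
    exact_mod_cast Nat.pos_of_ne_zero this
  set r : ℝ := (Ideal.absNorm 𝔞 : ℝ) ^ (1 / (d : ℝ)) with hr
  have hr0 : 0 < r := Real.rpow_pos_of_pos hN0 _
  have hrd : r ^ d = Ideal.absNorm 𝔞 := by
    rw [hr, ← Real.rpow_natCast, ← Real.rpow_mul hN0.le, one_div,
      inv_mul_cancel₀ (by exact_mod_cast hd0.ne'), Real.rpow_one]
  -- cells
  set s : ℝ := r / (2 * C) with hs
  have hs0 : 0 < s := by positivity
  set M : ℕ := ⌊C * R / s⌋₊ + 1 with hM
  set Q : Finset (Module.Free.ChooseBasisIndex ℤ (𝓞 F) → ℤ) :=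
    Fintype.piFinset fun _ => Finset.Icc (-(M : ℤ)) M with hQ
  have hQc : Q.card = (2 * M + 1) ^ d := by
    rw [hQ, Fintype.card_piFinset, Finset.prod_const, Finset.card_univ, card_idx, Int.card_Icc]
    congr 1
    omega
  have h3 : {a : 𝓞 F | a - b ∈ 𝔞 ∧ Bd (a : F) R}.ncard ≤ (Q : Set (Module.Free.ChooseBasisIndex ℤ (𝓞 F) → ℤ)).ncard := by
    refine Set.ncard_le_ncard_of_injOn
      (fun a i => ⌊((RingOfIntegers.basis F).repr a i : ℝ) / s⌋) (fun a ha => ?_) ?_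
      (Finset.finite_toSet _)
    · rw [Finset.mem_coe, hQ, Fintype.mem_piFinset]
      intro i
      have h4 := (h a).1 R hR ha.2 i
      have h5 : |((RingOfIntegers.basis F).repr a i : ℝ) / s| ≤ C * R / s := by
        rw [abs_div, abs_of_pos hs0]
        exact div_le_div_of_nonneg_right h4 hs0.le
      have h6 : C * R / s < M := by
        rw [hM]
        push_cast
        exact Nat.lt_floor_add_one _
      obtain ⟨h7, h8⟩ := abs_le.1 h5
      rw [Finset.mem_Icc]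
      constructor
      · rw [Int.le_floor]
        push_cast
        linarith
      · have : (⌊((RingOfIntegers.basis F).repr a i : ℝ) / s⌋ : ℝ) ≤ M :=
          (Int.floor_le _).trans (by linarith)
        exact_mod_cast this
    · intro a ha a' ha' haa
      by_contra hne
      have h4 : a - a' ∈ 𝔞 := by
        have := 𝔞.sub_mem ha.1 ha'.1
        rwa [sub_sub_sub_cancel_right] at this
      have h5 : Bd ((a - a' : 𝓞 F) : F) (C * s) := by
        refine (h (a - a')).2 s hs0.le fun i => ?_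
        have h6 : ⌊((RingOfIntegers.basis F).repr a i : ℝ) / s⌋ =
          ⌊((RingOfIntegers.basis F).repr a' i : ℝ) / s⌋ := congrFun haa i
        have h7 := Int.abs_sub_lt_one_of_floor_eq_floor h6
        rw [← sub_div, abs_div, abs_of_pos hs0, div_lt_one hs0] at h7
        rw [map_sub, Finsupp.sub_apply, Int.cast_sub]
        exact h7.le
      obtain ⟨-, h6⟩ := norm_ge h4 (sub_ne_zero.2 hne) h5
      have h7 : C * s = r / 2 := by rw [hs]; field_simp
      rw [h7, ← hd, ← hrd] at h6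
      have h8 : (r / 2) ^ d < r ^ d := pow_lt_pow_left₀ (by linarith) (by positivity) hd0.ne'
      linarith
  rw [Set.ncard_coe_finset, hQc] at h3
  have h4 : ((2 * M + 1 : ℕ) : ℝ) ≤ 8 * C ^ 2 * max (R / r) 1 := by
    have h5 : (M : ℝ) ≤ C * R / s + 1 := by
      rw [hM]; push_cast
      have := Nat.floor_le (show 0 ≤ C * R / s by positivity)
      linarith
    have h6 : C * R / s = 2 * C ^ 2 * (R / r) := by rw [hs]; field_simp
    have h7 : R / r ≤ max (R / r) 1 := le_max_left _ _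
    have h8 : 1 ≤ max (R / r) 1 := le_max_right _ _
    have h9 : (1 : ℝ) ≤ C ^ 2 := one_le_pow₀ hC
    push_cast
    rw [h6] at h5
    have h10 : C ^ 2 * (R / r) ≤ C ^ 2 * max (R / r) 1 := mul_le_mul_of_nonneg_left h7 (by positivity)
    have h11 : 1 ≤ C ^ 2 * max (R / r) 1 := by nlinarith
    nlinarith
  have h5 : (({a : 𝓞 F | a - b ∈ 𝔞 ∧ Bd (a : F) R}.ncard : ℕ) : ℝ) ≤
      (8 * C ^ 2 * max (R / r) 1) ^ d := by
    refine le_trans ?_ (pow_le_pow_left₀ (by positivity) h4 d)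
    exact_mod_cast h3
  refine h5.trans ?_
  rw [mul_pow]
  refine mul_le_mul_of_nonneg_left ?_ (by positivity)
  rw [← hrd, ← div_pow]
  rcases le_total (R / r) 1 with h6 | h6
  · rw [max_eq_right h6, one_pow]
    have : 0 ≤ (R / r) ^ d := by positivity
    linarith
  · rw [max_eq_left h6]
    linarith

theorem pts : Pool.Agent.N783.PF.S_PTS := by
  intro F _ _
  refine ⟨fun a R hR hb => ?_, ?_⟩
  · by_contra h0
    obtain ⟨h1, h2⟩ := norm_ge (𝔞 := ⊤) (x := a) trivial h0 hb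
    rw [Ideal.absNorm_top, Nat.cast_one] at h2
    have h3 : R ^ Module.finrank ℚ F < 1 := pow_lt_one₀ h1 hR Module.finrank_pos.ne'
    linarith
  · obtain ⟨C, hC, h⟩ := coord F
    have hC0 : 0 < C := by linarith
    have e1 : C ^ Module.finrank ℚ F ≤ (8 * C ^ 2) ^ Module.finrank ℚ F := by
      apply pow_le_pow_left₀ hC0.le
      nlinarith
    refine ⟨(8 * C ^ 2) ^ Module.finrank ℚ F, by positivity, fun R hR => ⟨fin_bd R, ?_⟩,
      fun 𝔞 b R h𝔞 hR => ⟨(fin_bd R).subset fun a ha => ha.2, ?_⟩⟩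
    · refine (lower hC (by linarith) fun a => (h a).2).trans ?_
      exact mul_le_mul_of_nonneg_right e1 (Nat.cast_nonneg _)
    · exact upper hC h 𝔞 b R h𝔞 hR

end Pool.Agent.N490.PF
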